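import Pool.Agent.H631.EX.Final

set_option autoImplicit false

/-!
Existence and uniqueness of the positive bounded steady state on exterior-star domains which satisfy
a uniform two sided ball condition, for positive reactions of class `C¹` on `[0, ∞)`.
-/

open Set Metric Filter Topology MeasureTheory

namespace Pool.Agent.Q34.XS

open ExtStar

noncomputable section

theorem BC_mono {d : ℕ} (Ω : Set (E d)) (r s : ℝ) (_hs : 0 < s) (hsr : s ≤ r) (h : BC Ω r) :
    BC Ω s := by
  intro q hq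
  obtain ⟨ν, h1, h2, h3, h4⟩ := h q hq
  refine ⟨ν, h1, h2, ?_, ?_⟩
  · refine (ball_subset_ball' ?_).trans h3
    rw [dist_eq_norm]
    have : q + s • ν - (q + r • ν) = (s - r) • ν := by rw [sub_smul]; abel
    rw [this, norm_smul, h2, mul_one, Real.norm_eq_abs, abs_of_nonpos (by linarith)]
    linarith
  · refine (ball_subset_ball' ?_).trans h4
    rw [dist_eq_norm]
    have : q - s • ν - (q - r • ν) = (r - s) • ν := by rw [sub_smul]; abel
    rw [this, norm_smul, h2, mul_one, Real.norm_eq_abs, abs_of_nonneg (by linarith)]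
    linarith

/-- everything, for reactions on the line -/
theorem main (d : ℕ) (f : ℝ → ℝ) (hR : React f) (Ω : Set (E d)) (hΩ : IsOpen Ω)
    (r : ℝ) (hr : 0 < r) (hBC0 : BC Ω r) (x₀ : E d) (hstar : StarConvex ℝ x₀ Ωᶜ) :
    (∃ u : E d → ℝ, PBS f Ω u) ∧
    (∀ u v : E d → ℝ, PBS f Ω u → PBS f Ω v → ∀ x ∈ Ω, u x = v x) ∧
    (∀ u : E d → ℝ, PBS f Ω u → ∀ x ∈ Ω, u x ≤ 1) ∧
      ∀ u : E d → ℝ, PBS f Ω u → ∀ x ∈ Ω, ∀ k : ℝ, 1 ≤ k →
        x₀ + k • (x - x₀) ∈ Ω ∧ u x ≤ u (x₀ + k • (x - x₀)) := by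
  have hle : ∀ u : E d → ℝ, PBS f Ω u → ∀ x ∈ Ω, u x ≤ 1 := by
    intro w hw z hz
    obtain ⟨w1, w2, w3, w4, w5, w6⟩ := hw
    exact sol_le_one f hR Ω hΩ w w1 w2 w3 w4 w5 w6 z hz
  have hSol : ∀ w : E d → ℝ, PBS f Ω w → Sol f Ω w := by
    intro w hw
    have := hle w hw
    obtain ⟨w1, w2, w3, w4, w5, w6⟩ := hw
    exact ⟨w1, w2, w3, fun z hz => ⟨w4 z hz, this z hz⟩, w6⟩
  by_cases hne : (Ωᶜ).Nonempty
  · obtain ⟨y, hy⟩ := hne
    have hx₀ : x₀ ∈ Ωᶜ := by
      have := hstar hy (zero_le_one) (le_refl (0 : ℝ)) (by norm_num)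
      simpa using this
    have hr' : 0 < min r 1 := lt_min hr one_pos
    have hBC := BC_mono Ω r (min r 1) hr' (min_le_left _ _) hBC0
    obtain ⟨L, c, ε, c₁, hRC⟩ := react_const f hR
    have hstar0 : Star0 ((fun x => x + x₀) ⁻¹' Ω) := by
      refine ⟨?_, ?_⟩
      · change ¬ ((0 : E d) + x₀ ∈ Ω)
        rw [zero_add]
        exact hx₀
      · intro y hy a b ha hb hab
        have h1 : y + x₀ ∈ Ωᶜ := hy
        have h2 := hstar h1 ha hb hab
        change ¬ (a • (0 : E d) + b • y + x₀ ∈ Ω)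
        have h3 : a • (0 : E d) + b • y + x₀ = a • x₀ + b • (y + x₀) := by
          have h4 : x₀ = (a + b) • x₀ := by rw [hab, one_smul]
          calc a • (0 : E d) + b • y + x₀ = b • y + x₀ := by rw [smul_zero, zero_add]
            _ = b • y + (a + b) • x₀ := by rw [← h4]
            _ = a • x₀ + b • (y + x₀) := by rw [add_smul, smul_add]; abel
        rw [h3]
        exact h2
    have hctx : Ctx f L c ε c₁ ((fun x => x + x₀) ⁻¹' Ω) (min r 1) :=
      ⟨hR, hRC, hΩ.preimage (continuous_id.add continuous_const), hstar0,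
        BC_shift Ω x₀ (min r 1) hBC, hr', min_le_right _ _⟩
    have key : ∀ u v : E d → ℝ, PBS f Ω u → PBS f Ω v → ∀ x ∈ Ω, ∀ k : ℝ, 1 ≤ k →
        x₀ + k • (x - x₀) ∈ Ω ∧ u x ≤ v (x₀ + k • (x - x₀)) := by
      intro u v hu hv x hx k hk
      have h1 := dil_le f L c ε c₁ ((fun x => x + x₀) ⁻¹' Ω) (min r 1) hctx (fun x => u (x + x₀))
        (fun x => v (x + x₀)) (Sol_shift f Ω x₀ u (hSol u hu)) (Sol_shift f Ω x₀ v (hSol v hv))
        (x - x₀) (by change x - x₀ + x₀ ∈ Ω; rw [sub_add_cancel]; exact hx) k hk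
      obtain ⟨h2, h3⟩ := h1
      have h2' : k • (x - x₀) + x₀ ∈ Ω := h2
      have h3' : u (x - x₀ + x₀) ≤ v (k • (x - x₀) + x₀) := h3
      rw [sub_add_cancel, add_comm (k • (x - x₀)) x₀] at h3'
      rw [add_comm (k • (x - x₀)) x₀] at h2'
      exact ⟨h2', h3'⟩
    refine ⟨?_, ?_, hle, fun u hu x hx k hk => key u u hu hu x hx k hk⟩
    · obtain ⟨w, hw⟩ := exists_sol f L c ε c₁ _ (min r 1) hctx
      have h1 := Sol_shift f _ (-x₀) w hw
      have h2 : (fun x => x + -x₀) ⁻¹' ((fun x => x + x₀) ⁻¹' Ω) = Ω := by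
        ext x
        simp
      rw [h2] at h1
      obtain ⟨g1, g2, g3, g4, g5⟩ := h1
      refine ⟨_, g1, g2, g3, fun x hx => (g4 x hx).1, ⟨1, fun x hx => ?_⟩, g5⟩
      rw [abs_of_pos (g4 x hx).1]
      exact (g4 x hx).2
    · intro u v hu hv x hx
      have h1 := (key u v hu hv x hx 1 le_rfl).2
      have h2 := (key v u hv hu x hx 1 le_rfl).2
      rw [one_smul, add_sub_cancel] at h1 h2
      exact le_antisymm h1 h2
  · have huniv : Ω = univ := by
      rw [Set.not_nonempty_iff_eq_empty] at hne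
      exact Set.compl_empty_iff.mp hne
    have key : ∀ w : E d → ℝ, PBS f Ω w → ∀ x ∈ Ω, w x = 1 := by
      intro w hw x hx
      have hS := hSol w hw
      refine le_antisymm (hS.2.2.2.1 x hx).2 ?_
      refine le_of_forall_pos_lt_add fun e he => ?_
      have he' : 0 < min (e / 2) (1 / 2) := by positivity
      have he1 : min (e / 2) (1 / 2) < 1 := lt_of_le_of_lt (min_le_right _ _) (by norm_num)
      obtain ⟨R, hR0, hR1⟩ := near_one d f hR _ he' he1
      have := hR1 Ω w x hΩ hS (by rw [huniv]; exact subset_univ _)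
      have h2 := min_le_left (e / 2) (1 / 2 : ℝ)
      linarith
    refine ⟨?_, fun u v hu hv x hx => by rw [key u hu x hx, key v hv x hx], hle, ?_⟩
    · rw [huniv]
      refine ⟨fun _ => 1, contDiffOn_const, continuousOn_const, ?_, fun _ _ => one_pos,
        ⟨1, fun _ _ => by simp⟩, ?_⟩
      · intro x hx
        rw [frontier_univ] at hx
        exact absurd hx (notMem_empty x)
      · intro x _
        rw [lap_const, hR.2.2.1, neg_zero]
    · intro u hu x hx k hk
      have hm : x₀ + k • (x - x₀) ∈ Ω := by rw [huniv]; exact mem_univ _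
      exact ⟨hm, by rw [key u hu x hx, key u hu _ hm]⟩

/-- extension of a function from the half line, with slope `a` -/
def ext (f : ℝ → ℝ) (a s : ℝ) : ℝ := if 0 ≤ s then f s else a * s

theorem ext_hasDerivAt (f : ℝ → ℝ) (hf : ContDiffOn ℝ 1 f (Ici 0)) (h0 : f 0 = 0) (s : ℝ) :
    HasDerivAt (ext f (derivWithin f (Ici 0) 0)) (derivWithin f (Ici 0) (max s 0)) s := by
  have hd : ∀ t : ℝ, 0 ≤ t → HasDerivWithinAt f (derivWithin f (Ici 0) t) (Ici 0) t := fun t ht =>
    (hf.differentiableOn one_ne_zero t ht).hasDerivWithinAt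
  rcases lt_trichotomy s 0 with hs | rfl | hs
  · rw [max_eq_right hs.le]
    have h1 : HasDerivAt (fun t : ℝ => derivWithin f (Ici 0) 0 * t) (derivWithin f (Ici 0) 0) s := by
      simpa using (hasDerivAt_id s).const_mul (derivWithin f (Ici 0) 0)
    refine h1.congr_of_eventuallyEq ?_
    filter_upwards [Iio_mem_nhds hs] with t ht
    unfold ext
    rw [if_neg (not_le.2 ht)]
  · rw [max_self]
    rw [← hasDerivWithinAt_univ, ← Iic_union_Ici (a := (0 : ℝ))]
    refine HasDerivWithinAt.union ?_ ?_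
    · have h1 : HasDerivWithinAt (fun t : ℝ => derivWithin f (Ici 0) 0 * t)
        (derivWithin f (Ici 0) 0) (Iic 0) 0 := by
        simpa using ((hasDerivAt_id (0 : ℝ)).const_mul (derivWithin f (Ici 0) 0)).hasDerivWithinAt
      refine h1.congr (fun t ht => ?_) ?_
      · unfold ext
        split_ifs with h
        · have : t = 0 := le_antisymm ht h
          rw [this, h0, mul_zero]
        · rfl
      · unfold ext
        rw [if_pos le_rfl, h0, mul_zero]
    · refine (hd 0 le_rfl).congr (fun t ht => ?_) ?_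
      · have ht' : (0 : ℝ) ≤ t := ht
        unfold ext
        rw [if_pos ht']
      · unfold ext
        rw [if_pos le_rfl]
  · rw [max_eq_left hs.le]
    have h1 : HasDerivAt f (derivWithin f (Ici 0) s) s := (hd s hs.le).hasDerivAt (Ici_mem_nhds hs)
    refine h1.congr_of_eventuallyEq ?_
    filter_upwards [Ioi_mem_nhds hs] with t ht
    unfold ext
    rw [if_pos (le_of_lt ht)]

theorem ext_react (f : ℝ → ℝ) (hf : ContDiffOn ℝ 1 f (Ici 0)) (h0 : f 0 = 0) (h1 : f 1 = 0)
    (hneg : ∀ s : ℝ, 1 < s → f s < 0) (hd1 : derivWithin f (Ici 0) 1 < 0)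
    (hpos : ∀ s : ℝ, 0 < s → s < 1 → 0 < f s) (hd0 : 0 < derivWithin f (Ici 0) 0) :
    React (ext f (derivWithin f (Ici 0) 0)) := by
  have hD := ext_hasDerivAt f hf h0
  refine ⟨?_, ?_, ?_, ?_, ?_, ?_, ?_⟩
  · rw [contDiff_one_iff_deriv]
    refine ⟨fun s => (hD s).differentiableAt, ?_⟩
    have h2 : deriv (ext f (derivWithin f (Ici 0) 0)) =
        fun s => derivWithin f (Ici 0) (max s 0) := funext fun s => (hD s).deriv
    rw [h2]
    have h3 : ContinuousOn (derivWithin f (Ici 0)) (Ici 0) :=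
      hf.continuousOn_derivWithin (uniqueDiffOn_Ici 0) le_rfl
    exact h3.comp_continuous (continuous_id.max continuous_const) fun s => by
      change (0 : ℝ) ≤ max s 0
      exact le_max_right _ _
  · unfold ext; rw [if_pos le_rfl, h0]
  · unfold ext; rw [if_pos zero_le_one, h1]
  · intro s hs
    unfold ext; rw [if_pos (by linarith)]; exact hneg s hs
  · rw [(hD 1).deriv, max_eq_left zero_le_one]; exact hd1
  · intro s hs hs1
    unfold ext; rw [if_pos hs.le]; exact hpos s hs hs1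
  · rw [(hD 0).deriv, max_self]; exact hd0

theorem PBS_ext (d : ℕ) (f : ℝ → ℝ) (a : ℝ) (Ω : Set (E d)) (u : E d → ℝ) :
    PBS (ext f a) Ω u ↔ PBS f Ω u := by
  unfold PBS
  refine and_congr_right fun _ => and_congr_right fun _ => and_congr_right fun _ =>
    and_congr_right fun h => and_congr_right fun _ => ?_
  refine forall_congr' fun x => forall_congr' fun hx => ?_
  unfold ext
  rw [if_pos (h x hx).le]

end

end Pool.Agent.Q34.XS
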